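import Pool.Agent.Helper8.AC.Block

/-! AC-7: `n` of `N` blocks have bounded sums (MP_981e7e_an) -/

set_option autoImplicit false

namespace Pool.Agent.Helper23.AC

open Finset

namespace Subset

theorem ub_small (n : ℕ) (hn : 0 < n) :
    UB 1 (∑ v ∈ (Finset.range n).erase 0, (Finsupp.single v (1 / (n : ℝ)) : Fn)) := by
  intro β
  refine (prA_sum_left_le _ _ _).trans ?_
  have h1 : ∀ v ∈ (Finset.range n).erase 0, prA (Finsupp.single v (1 / (n : ℝ))) β ≤
      1 / (n : ℝ) * tau β := by
    intro v _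
    rw [prA_single_left, abs_of_nonneg (by positivity)]
    exact mul_le_mul_of_nonneg_left (abs_le_tau β v) (by positivity)
  refine (Finset.sum_le_sum h1).trans ?_
  rw [Finset.sum_const, nsmul_eq_mul]
  have h2 : (((Finset.range n).erase 0).card : ℝ) ≤ n := by
    have := Finset.card_le_card (Finset.erase_subset 0 (Finset.range n))
    rw [Finset.card_range] at this
    exact_mod_cast this
  have h3 : 0 ≤ 1 / (n : ℝ) * tau β := mul_nonneg (by positivity) (tau_nonneg β)
  calc _ ≤ (n : ℝ) * (1 / (n : ℝ) * tau β) := mul_le_mul_of_nonneg_right h2 h3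
    _ = 1 * tau β := by field_simp

theorem exists_profile (n : ℕ) (hn : 0 < n) (q : Fin n → Fn) (hq : ∀ k, UB 1 (q k))
    (hq0 : ∀ k v, 0 ≤ q k v) (hqz : ∀ k, q k 0 = 0)
    (hclose : ∀ k k' v, v < n → |q k v - q k' v| ≤ 1 / n) :
    ∃ M : Fn, UB 4 M ∧ (∀ v, 0 ≤ M v) ∧ M 0 = 0 ∧ ∀ k v, q k v ≤ M v := by
  classical
  have : Nonempty (Fin n) := ⟨⟨0, hn⟩⟩
  have hmax : ∀ v, ∃ k, ∀ k', q k' v ≤ q k v := fun v => Finite.exists_max (fun k => q k v)
  choose κ hκ using hmax
  let k0 : Fin n := ⟨0, hn⟩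
  let e : Fn := ∑ v ∈ (Finset.range n).erase 0, Finsupp.single v (1 / (n : ℝ))
  let M1 : Fn := res {v | v < n} (q k0) + e
  let M2 : Fn := ∑ k, res {v | n ≤ v ∧ κ v = k} (q k)
  have he : ∀ v, e v = if v < n ∧ v ≠ 0 then 1 / (n : ℝ) else 0 := by
    intro v
    simp only [e]
    rw [Finsupp.finsetSum_apply]
    simp only [Finsupp.single_apply]
    rw [Finset.sum_ite_eq']
    simp only [Finset.mem_erase, Finset.mem_range, and_comm]
  have hM1 : ∀ v, M1 v = (if v < n then q k0 v else 0) +
      (if v < n ∧ v ≠ 0 then 1 / (n : ℝ) else 0) := by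
    intro v
    simp only [M1]
    rw [Finsupp.add_apply, he, res_apply]
    rfl
  have hM2 : ∀ v, M2 v = if n ≤ v then q (κ v) v else 0 := by
    intro v
    simp only [M2]
    rw [Finsupp.finsetSum_apply]
    simp only [res_apply, Set.mem_ofPred_eq]
    by_cases hv : n ≤ v
    · rw [if_pos hv, Finset.sum_eq_single (κ v)]
      · rw [if_pos ⟨hv, rfl⟩]
      · intro k _ hk
        rw [if_neg (fun h => hk h.2.symm)]
      · intro h; exact absurd (Finset.mem_univ _) h
    · rw [if_neg hv]
      exact Finset.sum_eq_zero fun k _ => by rw [if_neg (fun h => hv h.1)]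
  have hu1 : UB (1 + 1) M1 := ub_add (ub_res (hq k0) _) (ub_small n hn)
  have hu2 : UB (2 * 1) M2 := by
    apply ub_half n
    · intro k v hv
      rw [Finsupp.mem_support_iff, res_apply] at hv
      by_contra hcon
      apply hv
      rw [if_neg (fun h => hcon h.1)]
    · intro i j hij
      rw [Finset.disjoint_left]
      intro v hi hj
      rw [Finsupp.mem_support_iff, res_apply] at hi hj
      apply hij
      have h1 : κ v = i := by
        by_contra hcon
        exact hi (by rw [if_neg (fun h => hcon h.2)])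
      have h2 : κ v = j := by
        by_contra hcon
        exact hj (by rw [if_neg (fun h => hcon h.2)])
      rw [← h1, h2]
    · intro k; exact ub_res (hq k) _
    · exact zero_le_one
  refine ⟨M1 + M2, ?_, ?_, ?_, ?_⟩
  · have := ub_add hu1 hu2
    exact ub_weaken (by norm_num) this
  · intro v
    rw [Finsupp.add_apply, hM1, hM2]
    have h1 := hq0 k0 v
    have h2 := hq0 (κ v) v
    have h3 : 0 ≤ 1 / (n : ℝ) := by positivity
    split_ifs <;> linarith
  · rw [Finsupp.add_apply, hM1, hM2, if_pos hn, hqz, if_neg (fun h => h.2 rfl),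
      if_neg (by omega)]
    norm_num
  · intro k v
    rw [Finsupp.add_apply, hM1, hM2]
    by_cases hv : v < n
    · rw [if_pos hv, if_neg (not_le.2 hv)]
      by_cases hv0 : v = 0
      · subst hv0
        rw [hqz, hqz, if_neg (fun h => h.2 rfl)]
        norm_num
      · rw [if_pos ⟨hv, hv0⟩]
        have := abs_le.1 (hclose k k0 v hv)
        linarith [this.2]
    · rw [if_neg hv, if_neg (fun h => hv h.1), if_pos (not_lt.1 hv)]
      have := hκ v k
      linarith

theorem bracket (n : ℕ) (q : Fin n → Fn) (Y : Fin n → ℕ → Fn) (l r : Fin n → ℕ)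
    (hlr : ∀ i j, i < j → r i < l j) (hl : ∀ i, n ≤ l i) (hq0 : ∀ k v, 0 ≤ q k v)
    (hY : ∀ k, ∀ v ∈ (q k).support, Y k v ∈ convexHull ℝ {f | TypIn v (l k) (r k) f})
    (M : Fn) (hqM : ∀ k v, q k v ≤ M v) (t : Fin n → ℝ) (ht : ∀ k, |t k| ≤ 1) (v : ℕ)
    (hv : 0 < M v) :
    ∑ k, (1 / 2 * t k * (q k v / M v)) • Y k v ∈ convexHull ℝ {f | Typ v f} := by
  classical
  let S : Finset (Fin n) := Finset.univ.filter fun k => v ∈ (q k).support
  let F : Finset ℕ := S.map Fin.valEmbedding
  let a0 : Fin n → ℝ := fun k => 1 / 2 * t k * (q k v / M v)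
  let a : ℕ → ℝ := fun i => if h : i < n then a0 ⟨i, h⟩ else 0
  let X : ℕ → Fn := fun i => if h : i < n then Y ⟨i, h⟩ v else 0
  let l' : ℕ → ℕ := fun i => if h : i < n then l ⟨i, h⟩ else 0
  let r' : ℕ → ℕ := fun i => if h : i < n then r ⟨i, h⟩ else 0
  have ha : ∀ k : Fin n, a k.1 = a0 k := fun k => by simp [a]
  have hX : ∀ k : Fin n, X k.1 = Y k v := fun k => by simp [X]
  have hl' : ∀ k : Fin n, l' k.1 = l k := fun k => by simp [l']
  have hr' : ∀ k : Fin n, r' k.1 = r k := fun k => by simp [r']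
  have hF : ∀ i ∈ F, ∃ k : Fin n, k ∈ S ∧ k.1 = i := by
    intro i hi
    obtain ⟨k, hk, rfl⟩ := Finset.mem_map.1 hi
    exact ⟨k, hk, rfl⟩
  have ha1 : ∀ k, |2 * a0 k| ≤ 1 := by
    intro k
    have h1 : 2 * a0 k = t k * (q k v / M v) := by simp only [a0]; ring
    have h2 : 0 ≤ q k v / M v := div_nonneg (hq0 k v) hv.le
    have h3 : q k v / M v ≤ 1 := (div_le_one hv).2 (hqM k v)
    rw [h1, abs_mul, abs_of_nonneg h2]
    calc |t k| * (q k v / M v) ≤ 1 * 1 :=
        mul_le_mul (ht k) h3 h2 zero_le_one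
      _ = 1 := one_mul 1
  have ha2 : ∀ k, |a0 k| ≤ 1 := by
    intro k
    have := ha1 k
    rw [abs_mul, abs_of_nonneg (by norm_num : (0 : ℝ) ≤ 2)] at this
    have h0 := abs_nonneg (a0 k)
    linarith
  have key := hull_typIn_sum (v := v) (v' := v) F l' r' (by
      intro i hi j hj hij
      obtain ⟨k, hk, rfl⟩ := hF i hi
      obtain ⟨k', hk', rfl⟩ := hF j hj
      rw [hr', hl']
      exact hlr k k' hij) a X (by
      intro i hi
      obtain ⟨k, hk, rfl⟩ := hF i hi
      rw [hX, hl', hr']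
      exact hY k v (Finset.mem_filter.1 hk).2) (by
      intro i hi
      obtain ⟨k, hk, rfl⟩ := hF i hi
      rw [ha]
      have : 0 ≤ (1 / 8 : ℝ) ^ v := by positivity
      calc |a0 k| * (1 / 8 : ℝ) ^ v ≤ 1 * (1 / 8 : ℝ) ^ v :=
          mul_le_mul_of_nonneg_right (ha2 k) this
        _ = _ := one_mul _) (by
      intro c hc
      let c' : Fin n → Fn := fun k => if k ∈ S then (2 * a0 k) • c k.1 else 0
      have hc' : UB (2 * bb v) (∑ k, c' k) := by
        apply ub_half n
        · intro k m hm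
          simp only [c'] at hm
          split_ifs at hm with hk
          · have h1 := Finsupp.support_smul hm
            have h2 := ((hc k.1 (Finset.mem_map.2 ⟨k, hk, rfl⟩)).2 m h1).1
            rw [hl'] at h2
            exact (hl k).trans h2
          · simp at hm
        · intro i j hij
          rw [Finset.disjoint_left]
          intro m hmi hmj
          simp only [c'] at hmi hmj
          split_ifs at hmi hmj with hi hj hj
          · have h1 := (hc i.1 (Finset.mem_map.2 ⟨i, hi, rfl⟩)).2 m (Finsupp.support_smul hmi)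
            have h2 := (hc j.1 (Finset.mem_map.2 ⟨j, hj, rfl⟩)).2 m (Finsupp.support_smul hmj)
            rw [hl', hr'] at h1 h2
            rcases lt_or_gt_of_ne hij with h | h
            · have := hlr i j h; omega
            · have := hlr j i h; omega
          · simp at hmj
          · simp at hmi
          · simp at hmi
        · intro k
          simp only [c']
          split_ifs with hk
          · have h1 := ub_smul (2 * a0 k) (hc k.1 (Finset.mem_map.2 ⟨k, hk, rfl⟩)).1
            refine ub_weaken ?_ h1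
            have := bb_pos v
            calc |2 * a0 k| * bb v ≤ 1 * bb v := mul_le_mul_of_nonneg_right (ha1 k) this.le
              _ = bb v := one_mul _
          · exact ub_zero (bb_pos v).le
        · exact (bb_pos v).le
      have h3 := ub_smul (1 / 2 : ℝ) hc'
      have h4 : ∑ i ∈ F, a i • c i = (1 / 2 : ℝ) • ∑ k, c' k := by
        rw [Finset.sum_map, Finset.smul_sum]
        have h5 : ∀ k, (1 / 2 : ℝ) • c' k = if k ∈ S then a0 k • c k.1 else 0 := by
          intro k
          simp only [c']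
          split_ifs
          · rw [smul_smul]
            congr 1
            ring
          · rw [smul_zero]
        simp only [h5]
        rw [Finset.sum_ite_mem, Finset.univ_inter]
        refine Finset.sum_congr rfl fun k _ => ?_
        rw [Fin.valEmbedding_apply, ha]
      rw [h4]
      refine ub_weaken (le_of_eq ?_) h3
      rw [abs_of_nonneg (by norm_num)]
      ring)
  have h6 : ∑ k, (1 / 2 * t k * (q k v / M v)) • Y k v = ∑ i ∈ F, a i • X i := by
    rw [Finset.sum_map]
    have h7 : ∑ k ∈ S, a0 k • Y k v = ∑ k, a0 k • Y k v := by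
      apply Finset.sum_subset (Finset.subset_univ _)
      intro k _ hk
      have h8 : q k v = 0 := by
        by_contra hcon
        exact hk (Finset.mem_filter.2 ⟨Finset.mem_univ _, Finsupp.mem_support_iff.2 hcon⟩)
      simp only [a0]
      rw [h8, zero_div, mul_zero, zero_smul]
    change ∑ k, a0 k • Y k v = _
    rw [← h7]
    refine Finset.sum_congr rfl fun k _ => ?_
    rw [Fin.valEmbedding_apply, ha, hX]
  rw [h6]
  exact key

theorem core (n : ℕ) (hn : 0 < n) (q : Fin n → Fn) (Y : Fin n → ℕ → Fn) (l r : Fin n → ℕ)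
    (hlr : ∀ i j, i < j → r i < l j) (hl : ∀ i, n ≤ l i) (hq : ∀ k, UB 1 (q k))
    (hq0 : ∀ k v, 0 ≤ q k v)
    (hY : ∀ k, ∀ v ∈ (q k).support, 1 ≤ v ∧
      Y k v ∈ convexHull ℝ {f | TypIn v (l k) (r k) f})
    (hclose : ∀ k k' v, v < n → |q k v - q k' v| ≤ 1 / n)
    (t : Fin n → ℝ) (ht : ∀ k, |t k| ≤ 1) :
    nx (∑ k, t k • ((4 : ℝ) • ∑ v ∈ (q k).support, q k v • Y k v)) ≤ 32 := by
  classical
  have hqz : ∀ k, q k 0 = 0 := by
    intro k
    by_contra hcon
    have := (hY k 0 (Finsupp.mem_support_iff.2 hcon)).1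
    omega
  obtain ⟨M, hM4, hM0, hMz, hqM⟩ := exists_profile n hn q hq hq0 hqz hclose
  have hsub : ∀ k, (q k).support ⊆ M.support := by
    intro k v hv
    rw [Finsupp.mem_support_iff] at hv ⊢
    have h1 : 0 < q k v := lt_of_le_of_ne (hq0 k v) (Ne.symm hv)
    exact (lt_of_lt_of_le h1 (hqM k v)).ne'
  let Q : Fn := (1 / 4 : ℝ) • M
  have hQ : UB 1 Q := by
    have := ub_smul (1 / 4 : ℝ) hM4
    refine ub_weaken (le_of_eq ?_) this
    rw [abs_of_nonneg (by norm_num)]
    norm_num
  have hQs : Q.support = M.support := by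
    ext v
    simp [Q]
  let Z : ℕ → Fn := fun v => ∑ k, (1 / 2 * t k * (q k v / M v)) • Y k v
  have hZ : ∑ v ∈ Q.support, Q v • Z v ∈ convexHull ℝ {f | Good 0 f} := by
    apply hull_asm 0 Q hQ
    intro v hv
    rw [hQs] at hv
    have hv0 : M v ≠ 0 := Finsupp.mem_support_iff.1 hv
    refine ⟨Nat.zero_le _, ?_, ?_⟩
    · rcases Nat.eq_zero_or_pos v with h | h
      · exact absurd (h ▸ hMz) hv0
      · exact h
    · exact bracket n q Y l r hlr hl hq0 (fun k v hv => (hY k v hv).2) M hqM t ht v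
        (lt_of_le_of_ne (hM0 v) (Ne.symm hv0))
  have heq : ∑ k, t k • ((4 : ℝ) • ∑ v ∈ (q k).support, q k v • Y k v) =
      (32 : ℝ) • ∑ v ∈ Q.support, Q v • Z v := by
    have h1 : ∀ k, ∑ v ∈ (q k).support, q k v • Y k v = ∑ v ∈ M.support, q k v • Y k v := by
      intro k
      apply Finset.sum_subset (hsub k)
      intro v _ hv
      rw [Finsupp.notMem_support_iff.1 hv, zero_smul]
    simp only [h1, Finset.smul_sum, hQs]
    rw [Finset.sum_comm]
    refine Finset.sum_congr rfl fun v hv => ?_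
    simp only [Z, Finset.smul_sum]
    refine Finset.sum_congr rfl fun k _ => ?_
    simp only [smul_smul]
    congr 1
    have hv0 : M v ≠ 0 := Finsupp.mem_support_iff.1 hv
    simp only [Q, Finsupp.smul_apply, smul_eq_mul]
    field_simp
    ring
  rw [heq, nx_smul, abs_of_nonneg (by norm_num)]
  have := nx_le_one_of_mem hZ
  linarith

end Subset

theorem exists_good_subset (n : ℕ) : ∃ N : ℕ, ∀ (x : Fin N → Fn) (l r : Fin N → ℕ),
    (∀ i, ∀ k ∈ (x i).support, l i ≤ k ∧ k ≤ r i) → (∀ i j, i < j → r i < l j) →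
    (∀ i, N ≤ l i ∧ l i ≤ r i) → (∀ i, nx (x i) ≤ 1) →
    ∃ σ : Fin n ↪o Fin N, ∀ t : Fin n → ℝ, (∀ k, |t k| ≤ 1) →
      nx (∑ k, t k • x (σ k)) ≤ 50 := by
  classical
  rcases Nat.eq_zero_or_pos n with hn | hn
  · subst hn
    refine ⟨0, fun x l r _ _ _ _ => ⟨(OrderIso.refl _).toOrderEmbedding, fun t _ => ?_⟩⟩
    rw [Finset.univ_eq_empty, Finset.sum_empty, nx_zero]
    norm_num
  · refine ⟨(n + 1) ^ n * n + n + 1, fun x l r hs hlr hl hx => ?_⟩
    have hdec := fun i => block_decomp (hx i) (hs i)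
    choose q Y hq hq0 hY hxe using hdec
    have hq1 : ∀ i v, q i v ≤ 1 := fun i v => (le_abs_self _).trans (ub_coord (hq i) v)
    let f : Fin ((n + 1) ^ n * n + n + 1) → (Fin n → ℕ) := fun i v => ⌊(n : ℝ) * q i v⌋₊
    have hmap : ∀ i ∈ (Finset.univ : Finset (Fin ((n + 1) ^ n * n + n + 1))),
        f i ∈ Fintype.piFinset fun _ : Fin n => Finset.range (n + 1) := by
      intro i _
      rw [Fintype.mem_piFinset]
      intro v
      rw [Finset.mem_range, Nat.lt_succ_iff]
      apply Nat.floor_le_of_le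
      have h0 : (0 : ℝ) ≤ n := Nat.cast_nonneg n
      have := mul_le_mul_of_nonneg_left (hq1 i v) h0
      rw [mul_one] at this
      exact this
    have hcard : (Fintype.piFinset fun _ : Fin n => Finset.range (n + 1)).card * n <
        (Finset.univ : Finset (Fin ((n + 1) ^ n * n + n + 1))).card := by
      rw [Fintype.card_piFinset, Finset.card_univ, Fintype.card_fin]
      simp only [Finset.card_range, Finset.prod_const, Finset.card_univ, Fintype.card_fin]
      omega
    obtain ⟨y, _, hy⟩ := Finset.exists_lt_card_fiber_of_mul_lt_card_of_maps_to hmap hcard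
    let σ : Fin n ↪o Fin ((n + 1) ^ n * n + n + 1) :=
      Finset.orderEmbOfCardLe _ hy.le
    have hσ : ∀ k, f (σ k) = y := by
      intro k
      have := Finset.orderEmbOfCardLe_mem _ hy.le k
      exact (Finset.mem_filter.1 this).2
    refine ⟨σ, fun t ht => ?_⟩
    have hcl : ∀ k k' v, v < n → |q (σ k) v - q (σ k') v| ≤ 1 / n := by
      intro k k' v hv
      have h1 : ⌊(n : ℝ) * q (σ k) v⌋₊ = ⌊(n : ℝ) * q (σ k') v⌋₊ := by
        have h2 := congrFun (hσ k) ⟨v, hv⟩
        have h3 := congrFun (hσ k') ⟨v, hv⟩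
        exact h2.trans h3.symm
      have hn0 : (0 : ℝ) < n := Nat.cast_pos.2 hn
      have ha0 : 0 ≤ (n : ℝ) * q (σ k) v := mul_nonneg hn0.le (hq0 _ _)
      have hb0 : 0 ≤ (n : ℝ) * q (σ k') v := mul_nonneg hn0.le (hq0 _ _)
      have ha1 := Nat.floor_le ha0
      have ha2 := Nat.lt_floor_add_one ((n : ℝ) * q (σ k) v)
      have hb1 := Nat.floor_le hb0
      have hb2 := Nat.lt_floor_add_one ((n : ℝ) * q (σ k') v)
      rw [h1] at ha1 ha2
      rw [abs_le]
      have e1 : (n : ℝ) * (q (σ k) v - q (σ k') v) ≤ 1 := by linarith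
      have e2 : -1 ≤ (n : ℝ) * (q (σ k) v - q (σ k') v) := by linarith
      constructor
      · rw [neg_le_iff_add_nonneg]
        have : 0 ≤ (n : ℝ) * (q (σ k) v - q (σ k') v + 1 / n) := by
          have h9 : (n : ℝ) * (q (σ k) v - q (σ k') v + 1 / n) =
            (n : ℝ) * (q (σ k) v - q (σ k') v) + 1 := by field_simp
          rw [h9]; linarith
        exact nonneg_of_mul_nonneg_right this hn0
      · rw [le_div_iff₀ hn0, mul_comm]
        exact e1
    have hmain := Subset.core n hn (fun k => q (σ k)) (fun k => Y (σ k)) (fun k => l (σ k))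
      (fun k => r (σ k)) (fun i j hij => hlr _ _ (σ.strictMono hij))
      (fun i => by have := (hl (σ i)).1; omega)
      (fun k => hq _) (fun k => hq0 _) (fun k => hY _) hcl t ht
    have hfin : ∑ k, t k • x (σ k) =
        ∑ k, t k • ((4 : ℝ) • ∑ v ∈ (q (σ k)).support, q (σ k) v • Y (σ k) v) := by
      refine Finset.sum_congr rfl fun k _ => ?_
      rw [← hxe]
    rw [hfin]
    linarith

end Pool.Agent.Helper23.AC
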